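import Pool.Agent.N694.IX.Stp
import Pool.Agent.H362R2.CM.Box

/-!
Primes and their indices at translates of tuples (helper694): all patterns and all indices at once.
-/

set_option autoImplicit false

namespace Pool.Agent.N694.IX

open Finset Filter Topology

/-- all patterns with all prescribed numbers of primes modulo `n` -/
def GI (q : ℕ) (b : ℤ) (n C N : ℕ) (F : Finset ℤ) : Prop := ∀ (J : Finset ℤ) (α : ℤ → ℕ),
  (N : ℝ) / (Real.log N) ^ C ≤ (Set.ncard {m : ℕ | (1 ≤ m ∧ m ≤ N) ∧ ∀ v ∈ F, ((vl q b v m).Prime ↔ v ∈ J) ∧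
    Nat.primeCounting (vl q b v m) ≡ α v [MOD n]} : ℝ)

theorem GI_fin (N : ℕ) (P : ℕ → Prop) : Set.Finite {m : ℕ | (1 ≤ m ∧ m ≤ N) ∧ P m} :=
  (Set.finite_le_nat N).subset fun _ hm => hm.1.2

theorem GI_anti {q : ℕ} {b : ℤ} {n C N : ℕ} {F F' : Finset ℤ} (h : F' ⊆ F) (hF : GI q b n C N F) :
    GI q b n C N F' := by
  intro J α
  refine (hF J α).trans ?_
  rw [Nat.cast_le]
  exact Set.ncard_le_ncard (fun m hm => ⟨hm.1, fun v hv => hm.2 v (h hv)⟩) (GI_fin N _)

theorem GI_mono {q : ℕ} {b : ℤ} {n C C' N : ℕ} {F : Finset ℤ} (hN : 3 ≤ N) (hC : C ≤ C')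
    (hF : GI q b n C N F) : GI q b n C' N F := by
  intro J α
  refine le_trans ?_ (hF J α)
  have hl := Pool.Agent.Y827.RO.log_ge_one hN
  have h4 : Real.log N ^ C ≤ Real.log N ^ C' := pow_le_pow_right₀ hl hC
  exact div_le_div_of_nonneg_left (Nat.cast_nonneg _) (by positivity) h4

open Classical in
/-- **the coloured theorem**: large classes have representatives for `5/18` of the classes with all patterns and all
indices modulo `n` -/
theorem hitI (q : ℕ) (hq : 1 ≤ q) (b : ℤ) (hb : IsCoprime (q : ℤ) b) (n : ℕ) (hn : 1 ≤ n) (T : ℕ) :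
    ∃ K z : ℕ, 1 ≤ K ∧ (1 ≤ T → ∀ H : Fin T → Fin K → ℤ,
      Function.Injective (fun x : Fin T × Fin K => H x.1 x.2) →
      (∀ g i, ((q * Nat.factorial z : ℕ) : ℤ) ∣ H g i) → ∃ C : ℕ, ∀ᶠ N : ℕ in atTop,
      ∃ (S : Finset (Fin T)) (e : Fin T → Fin K), (T : ℝ) ≤ (18 / 5) * (S.card : ℝ) ∧
        GI q b n C N (S.image (fun g => H g (e g)))) := by
  rcases Nat.eq_zero_or_pos T with hT0 | hT
  · subst hT0
    exact ⟨1, 0, le_rfl, fun h => absurd h (by norm_num)⟩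
  obtain ⟨B, z, hB, hst⟩ := hitA q hq b hb n hn T hT
  have hcard : 0 < Fintype.card (Finset (Finset (Fin T) × Finset (Fin T) × (Fin T → Fin n))) :=
    Fintype.card_pos
  obtain ⟨δ, hδ⟩ : ∃ δ : ℝ, δ =
    1 / (Fintype.card (Finset (Finset (Fin T) × Finset (Fin T) × (Fin T → Fin n))) : ℝ) := ⟨_, rfl⟩
  have hcardR : (0 : ℝ) < (Fintype.card (Finset (Finset (Fin T) × Finset (Fin T) × (Fin T → Fin n))) : ℝ) := by
    exact_mod_cast hcard
  have hδ0 : 0 < δ := by rw [hδ]; positivity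
  obtain ⟨N0, hN0⟩ := Pool.Agent.H362R2.CM.box_lemma T B δ hδ0
  obtain ⟨K₂, hK₂⟩ : ∃ K₂, K₂ = max N0 B := ⟨_, rfl⟩
  have hBK : B ≤ K₂ := by omega
  have hNK : N0 ≤ K₂ := by omega
  refine ⟨T * K₂, z, Nat.mul_pos hT (by omega), fun _ H hinj hdv => ?_⟩
  have hinj1 : ∀ g g' i i', H g i = H g' i' → g = g' ∧ i = i' := by
    intro g g' i i' h
    have := hinj (a₁ := (g, i)) (a₂ := (g', i')) h
    exact ⟨congrArg Prod.fst this, congrArg Prod.snd this⟩
  obtain ⟨W, hW1, hW2⟩ := sep K₂ (by omega) (univ : Finset (Fin T)) (fun g => univ.image (H g)) (by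
    intro g _
    rw [card_image_of_injective _ (fun i i' h => (hinj1 g g i i' h).2), card_univ, card_univ,
      Fintype.card_fin, Fintype.card_fin])
  obtain ⟨u, hu1, hu2⟩ : ∃ u : Fin T → Fin K₂ → ℤ, (∀ g, StrictMono (u g)) ∧ ∀ g x, u g x ∈ W g :=
    ⟨fun g => (W g).orderEmbOfFin (hW1 g (mem_univ _)).2,
      fun g => ((W g).orderEmbOfFin (hW1 g (mem_univ _)).2).strictMono,
      fun g x => (W g).orderEmbOfFin_mem (hW1 g (mem_univ _)).2 x⟩
  have huH : ∀ g x, ∃ i, H g i = u g x := by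
    intro g x
    obtain ⟨i, -, hi⟩ := mem_image.1 ((hW1 g (mem_univ _)).1 (hu2 g x))
    exact ⟨i, hi⟩
  have hfor : ∀ A : Fin T → Fin B → Fin K₂, ∃ C : ℕ, ∀ᶠ N : ℕ in atTop,
      (∀ g, StrictMono (A g)) → ∃ S : Finset (Fin T), (T : ℝ) ≤ (18 / 5) * (S.card : ℝ) ∧
        ∀ (J : Finset (Fin T)) (α : Fin T → ℕ), ∃ e : Fin T → Fin B,
          (N : ℝ) / (Real.log N) ^ C ≤ (cI q b n S (fun g => u g (A g (e g))) J α N : ℝ) := by
    intro A
    by_cases hA : ∀ g, StrictMono (A g)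
    swap
    · exact ⟨0, Eventually.of_forall fun N h => absurd h hA⟩
    obtain ⟨C, hC⟩ := hst (fun g x => u g (A g x)) (fun g => (hu1 g).comp (hA g)) (by
      intro g g' hne
      rcases hW2 g (mem_univ _) g' (mem_univ _) hne with h | h
      · exact Or.inl fun x y => h _ (hu2 _ _) _ (hu2 _ _)
      · exact Or.inr fun x y => h _ (hu2 _ _) _ (hu2 _ _)) (by
      intro g x
      obtain ⟨i, hi⟩ := huH g (A g x)
      rw [← hi]
      exact hdv g i)
    refine ⟨C, ?_⟩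
    filter_upwards [hC] with N hN _
    exact hN
  choose CC hCC using hfor
  set C : ℕ := ∑ A : Fin T → Fin B → Fin K₂, CC A with hCdef
  have hCle : ∀ A, CC A ≤ C := fun A => single_le_sum (f := CC) (fun _ _ => Nat.zero_le _) (mem_univ A)
  refine ⟨C, ?_⟩
  filter_upwards [eventually_all.2 hCC, eventually_ge_atTop 3] with N hN hN3
  -- the colouring
  set col : (Fin T → Fin K₂) → Finset (Finset (Fin T) × Finset (Fin T) × (Fin T → Fin n)) := fun φ =>
    univ.filter (fun y => (N : ℝ) / (Real.log N) ^ C ≤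
      (cI q b n y.1 (fun g => u g (φ g)) y.2.1 (fun g => (y.2.2 g : ℕ)) N : ℝ)) with hcol
  obtain ⟨c, -, hc⟩ := Finset.exists_le_card_fiber_of_nsmul_le_card_of_maps_to
    (s := (univ : Finset (Fin T → Fin K₂)))
    (t := (univ : Finset (Finset (Finset (Fin T) × Finset (Fin T) × (Fin T → Fin n)))))
    (f := col) (fun _ _ => mem_univ _) ⟨∅, mem_univ _⟩ (b := δ * (K₂ : ℝ) ^ T) (by
      rw [nsmul_eq_mul, card_univ, card_univ, hδ, ← mul_assoc, mul_one_div, div_self hcardR.ne', one_mul,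
        Fintype.card_fun, Fintype.card_fin, Fintype.card_fin]
      push_cast
      exact le_rfl)
  obtain ⟨A, hA1, hA2⟩ := hN0 (Fin K₂) (fun _ => univ)
    (fun _ => by rw [card_univ, Fintype.card_fin]; exact hNK)
    ((univ : Finset (Fin T → Fin K₂)).filter (fun φ => col φ = c))
    (fun φ _ => Fintype.mem_piFinset.2 fun _ => mem_univ _)
    (by
      rw [prod_const, card_univ, card_univ, Fintype.card_fin, Fintype.card_fin]
      exact hc)
  have hA3 : ∀ cc : Fin T → Fin B, col (fun i => A i (cc i)) = c := fun cc => (mem_filter.1 (hA2 cc)).2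
  have hAc : ∀ g, (univ.image (A g)).card = B := fun g => by
    rw [card_image_of_injective _ (hA1 g), card_univ, Fintype.card_fin]
  obtain ⟨A', hA'1, hA'2⟩ : ∃ A' : Fin T → Fin B → Fin K₂, (∀ g, StrictMono (A' g)) ∧
      ∀ g x, ∃ y, A g y = A' g x := by
    refine ⟨fun g => (univ.image (A g)).orderEmbOfFin (hAc g),
      fun g => ((univ.image (A g)).orderEmbOfFin (hAc g)).strictMono, fun g x => ?_⟩
    obtain ⟨y, -, hy⟩ := mem_image.1 ((univ.image (A g)).orderEmbOfFin_mem (hAc g) x)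
    exact ⟨y, hy⟩
  choose y hy using hA'2
  obtain ⟨S, hS, hSall⟩ := hN A' hA'1
  have hl := Pool.Agent.Y827.RO.log_ge_one hN3
  have hmem : ∀ (J : Finset (Fin T)) (α : Fin T → Fin n), (S, J, α) ∈ c := by
    intro J α
    obtain ⟨e, he⟩ := hSall J (fun g => (α g : ℕ))
    rw [← hA3 (fun g => y g (e g)), hcol]
    refine mem_filter.2 ⟨mem_univ _, ?_⟩
    have h1 : (fun g => u g (A g (y g (e g)))) = (fun g => u g (A' g (e g))) := by
      funext g
      rw [hy]
    show (N : ℝ) / (Real.log N) ^ C ≤ (cI q b n S (fun g => u g (A g (y g (e g)))) J (fun g => (α g : ℕ)) N : ℝ)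
    rw [h1]
    refine le_trans ?_ he
    exact div_le_div_of_nonneg_left (Nat.cast_nonneg _) (by positivity) (pow_le_pow_right₀ hl (hCle A'))
  choose e he using huH
  refine ⟨S, fun g => e g (A g ⟨0, hB⟩), hS, ?_⟩
  intro J α
  have h1 := hmem (univ.filter (fun g => u g (A g ⟨0, hB⟩) ∈ J))
    (fun g => ⟨α (u g (A g ⟨0, hB⟩)) % n, Nat.mod_lt _ hn⟩)
  rw [← hA3 (fun g => ⟨0, hB⟩), hcol] at h1
  refine (mem_filter.1 h1).2.trans ?_
  rw [Nat.cast_le]
  unfold cI
  rw [← Set.ncard_coe_finset]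
  refine Set.ncard_le_ncard ?_ (GI_fin N _)
  intro m hm
  rw [mem_coe, mem_filter, mem_Icc] at hm
  refine ⟨hm.1, fun v hv => ?_⟩
  obtain ⟨g, hg, rfl⟩ := mem_image.1 hv
  rw [he]
  obtain ⟨h2, h3⟩ := hm.2 g hg
  refine ⟨h2.trans ?_, h3.trans (Nat.mod_modEq _ _)⟩
  rw [mem_filter]
  exact ⟨fun h => h.2, fun h => ⟨mem_univ _, h⟩⟩

end Pool.Agent.N694.IX
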