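import Pool.Agent.N646.BX.All
import Pool.Agent.N694.IX.Ram

/-!
Primes and their indices at translates of tuples (helper694): almost cliques and boxes of shifts.
-/

set_option autoImplicit false

namespace Pool.Agent.N694.IX

open Finset Filter Topology
open Pool.Agent.N646.AC
open Pool.Agent.N646.BX

open Classical in
/-- one almost complete set for each large `N` -/
theorem clqI (k : ℕ) (ε : ℝ) (hε : 0 < ε) (q : ℕ) (hq : 1 ≤ q) (b : ℤ) (hb : IsCoprime (q : ℤ) b) (n : ℕ)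
    (hn : 1 ≤ n) : ∃ z n₀ : ℕ, ∀ V : Finset ℤ, (∀ x ∈ V, ((q * Nat.factorial z : ℕ) : ℤ) ∣ x) →
    n₀ ≤ V.card → ∃ C : ℕ, ∀ᶠ N : ℕ in atTop, ∃ A ⊆ V, (5 / 18 - ε) * (V.card : ℝ) ≤ (A.card : ℝ) ∧
      ((badT k A (GI q b n C N)).card : ℝ) ≤ ε * (V.card : ℝ) ^ (k + 1) := by
  choose Kf zf hKf1 hKf using hitI q hq b hb n hn
  obtain ⟨M, n₀, hcl⟩ := wclique (lam := 18 / 5) (by norm_num) k ε hε 1 le_rfl Kf
  refine ⟨∑ T' ∈ range (M + 1), zf T', n₀, ?_⟩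
  intro V hV hn0
  have hex : ∀ (T' : Fin (M + 1)) (H : Fin (T' : ℕ) → Fin (Kf T') → {x // x ∈ V}), ∃ C : ℕ,
      1 ≤ (T' : ℕ) → Function.Injective (fun x : Fin (T' : ℕ) × Fin (Kf T') => H x.1 x.2) →
      ∀ᶠ N : ℕ in atTop, ∃ (S : Finset (Fin (T' : ℕ))) (c : Fin (T' : ℕ) → Fin (Kf T')),
        (((T' : ℕ) : ℝ)) ≤ (18 / 5) * (S.card : ℝ) ∧
        GI q b n C N (S.image (fun g => (H g (c g)).1)) := by
    intro T' H
    by_cases h1 : 1 ≤ (T' : ℕ) ∧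
        Function.Injective (fun x : Fin (T' : ℕ) × Fin (Kf T') => H x.1 x.2)
    swap
    · exact ⟨0, fun h2 h3 => absurd ⟨h2, h3⟩ h1⟩
    obtain ⟨h1, h2⟩ := h1
    obtain ⟨C, hC⟩ := hKf T' h1 (fun g i => (H g i).1) (fun x y hxy => h2 (Subtype.ext hxy))
      (fun g i => by
        refine dvd_trans ?_ (hV _ (H g i).2)
        rw [Int.natCast_dvd_natCast]
        exact Nat.mul_dvd_mul_left q (Nat.factorial_dvd_factorial
          (Finset.single_le_sum (f := fun T' => zf T') (fun _ _ => Nat.zero_le _) (mem_range.2 T'.2))))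
    exact ⟨C, fun _ _ => hC⟩
  choose Cf hCf using hex
  set C : ℕ := ∑ T' : Fin (M + 1), ∑ H : Fin (T' : ℕ) → Fin (Kf T') → {x // x ∈ V}, Cf T' H with hC
  refine ⟨C, ?_⟩
  have hCle : ∀ (T' : Fin (M + 1)) (H : Fin (T' : ℕ) → Fin (Kf T') → {x // x ∈ V}),
      Cf T' H ≤ C := by
    intro T' H
    refine (single_le_sum (f := fun H => Cf T' H) (fun _ _ => Nat.zero_le _) (mem_univ H)).trans ?_
    exact single_le_sum (f := fun T' : Fin (M + 1) =>
      ∑ H : Fin (T' : ℕ) → Fin (Kf T') → {x // x ∈ V}, Cf T' H) (fun _ _ => Nat.zero_le _)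
      (mem_univ T')
  have hev : ∀ᶠ N : ℕ in atTop, ∀ (T' : Fin (M + 1))
      (H : Fin (T' : ℕ) → Fin (Kf T') → {x // x ∈ V}),
      1 ≤ (T' : ℕ) → Function.Injective (fun x : Fin (T' : ℕ) × Fin (Kf T') => H x.1 x.2) →
      ∃ (S : Finset (Fin (T' : ℕ))) (c : Fin (T' : ℕ) → Fin (Kf T')),
        (((T' : ℕ) : ℝ)) ≤ (18 / 5) * (S.card : ℝ) ∧
        GI q b n (Cf T' H) N (S.image (fun g => (H g (c g)).1)) := by
    rw [eventually_all]
    intro T'
    rw [eventually_all]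
    intro H
    by_cases h1 : 1 ≤ (T' : ℕ) ∧
        Function.Injective (fun x : Fin (T' : ℕ) × Fin (Kf T') => H x.1 x.2)
    swap
    · exact Eventually.of_forall fun x h2 h3 => absurd ⟨h2, h3⟩ h1
    filter_upwards [hCf T' H h1.1 h1.2] with N hN _ _
    exact hN
  filter_upwards [hev, eventually_ge_atTop 3] with N hN hN3
  obtain ⟨A, hA1, hA2, hA3⟩ := hcl ℤ V (GI q b n C N) hn0
    (fun F F' hF h => GI_anti hF h) (by
      intro T' hT'1 hT'M H hHV hHinj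
      obtain ⟨S, c, hS, hSc⟩ := hN ⟨T', by omega⟩ (fun g i => ⟨H g i, hHV g i⟩) hT'1 (by
        intro x y hxy
        exact hHinj (congrArg Subtype.val hxy))
      exact ⟨S, c, hS, GI_mono hN3 (hCle _ _) hSc⟩) (fun _ => 1)
    (fun _ _ => ⟨le_rfl, le_rfl⟩)
  refine ⟨A, hA1, ?_, hA3.le⟩
  simp only [sum_const, smul_eq_mul, mul_one] at hA2
  have h5 : (1 : ℝ) / (18 / 5) = 5 / 18 := by norm_num
  rw [h5] at hA2
  exact hA2

open Classical in
/-- one family of tuples -/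
theorem clqJ (k : ℕ) (ε : ℝ) (hε : 0 < ε) (q : ℕ) (hq : 1 ≤ q) (b : ℤ) (hb : IsCoprime (q : ℤ) b) (n : ℕ)
    (hn : 1 ≤ n) : ∃ z n₀ : ℕ, ∀ V : Finset ℤ, (∀ x ∈ V, ((q * Nat.factorial z : ℕ) : ℤ) ∣ x) →
    n₀ ≤ V.card → ∃ (A : Finset ℤ) (G : Finset (Fin (k + 1) → ℤ)) (C : ℕ), A ⊆ V ∧
      (5 / 18 - ε) * (V.card : ℝ) ≤ (A.card : ℝ) ∧
      (((Fintype.piFinset (fun _ : Fin (k + 1) => A)).filter
        (fun y => Function.Injective y ∧ y ∉ G)).card : ℝ) ≤ ε * (V.card : ℝ) ^ (k + 1) ∧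
      ∃ᶠ N : ℕ in atTop, ∀ y ∈ G, GI q b n C N (univ.image y) := by
  obtain ⟨z, n₀, h⟩ := clqI k ε hε q hq b hb n hn
  refine ⟨z, n₀, fun V hV hn0 => ?_⟩
  set P : Finset (Finset ℤ × Finset (Fin (k + 1) → ℤ)) :=
    V.powerset ×ˢ (Fintype.piFinset (fun _ : Fin (k + 1) => V)).powerset with hP
  obtain ⟨C, hC⟩ := h V hV hn0
  obtain ⟨p, hp, hfr⟩ := freq_finset P (fun p N =>
      ((5 / 18 - ε) * (V.card : ℝ) ≤ (p.1.card : ℝ) ∧
        (((Fintype.piFinset (fun _ : Fin (k + 1) => p.1)).filter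
          (fun y => Function.Injective y ∧ y ∉ p.2)).card : ℝ) ≤ ε * (V.card : ℝ) ^ (k + 1)) ∧
        ∀ y ∈ p.2, GI q b n C N (univ.image y)) (by
    filter_upwards [hC] with N hN
    obtain ⟨A, hA1, hA2, hA3⟩ := hN
    refine ⟨(A, (Fintype.piFinset (fun _ : Fin (k + 1) => V)).filter
      (fun y => GI q b n C N (univ.image y))), ?_, ⟨hA2, ?_⟩, fun y hy => (mem_filter.1 hy).2⟩
    · rw [hP, mem_product]
      refine ⟨mem_powerset.2 hA1, ?_⟩
      rw [mem_powerset]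
      exact filter_subset _ _
    · refine le_trans ?_ hA3
      rw [Nat.cast_le]
      apply card_le_card
      intro y hy
      obtain ⟨h1, h2, h3⟩ := mem_filter.1 hy
      unfold badT
      refine mem_filter.2 ⟨h1, h2, fun hG => h3 ?_⟩
      exact mem_filter.2 ⟨Fintype.mem_piFinset.2 fun i => hA1 (Fintype.mem_piFinset.1 h1 i), hG⟩)
  rw [hP, mem_product] at hp
  obtain ⟨N₀, hN₀⟩ := hfr.exists
  exact ⟨p.1, p.2, C, mem_powerset.1 hp.1, hN₀.1.1, hN₀.1.2, hfr.mono fun N hN => hN.2⟩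

/-- `m ≡ b` modulo `q`, for each `i` the number `m + d i` is prime exactly for `i ∈ J`, and the number of the primes up
to `m + d i` is `≡ a i` modulo `n` -/
def Pb (q : ℕ) (b : ℤ) (n : ℕ) {k : ℕ} (d : Fin (k + 1) → ℤ) (J : Finset (Fin (k + 1))) (a : Fin (k + 1) → ℕ)
    (m : ℕ) : Prop :=
  (m : ℤ) ≡ b [ZMOD q] ∧ ∀ i, (((m : ℤ) + d i).toNat.Prime ↔ i ∈ J) ∧
    Nat.primeCounting ((m : ℤ) + d i).toNat ≡ a i [MOD n]

/-- all patterns and all residues modulo `n` of the numbers of primes occur often for the shifts `0, d` -/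
def GoodI (q : ℕ) (b : ℤ) (n : ℕ) {k : ℕ} (d : Fin k → ℤ) : Prop := ∃ C : ℕ, ∃ᶠ x : ℕ in atTop,
  ∀ (J : Finset (Fin (k + 1))) (a : Fin (k + 1) → ℕ),
    (x : ℝ) / (Real.log x) ^ C ≤
      (Set.ncard {m : ℕ | (1 ≤ m ∧ m ≤ x) ∧ Pb q b n (Fin.cons 0 d : Fin (k + 1) → ℤ) J a m} : ℝ)

theorem transI {q : ℕ} (hq : 1 ≤ q) {b : ℤ} {n k : ℕ} {y : Fin (k + 1) → ℤ} (hyq : ∀ i, (q : ℤ) ∣ y i)
    (hinj : Function.Injective y) {C N : ℕ} (h : GI q b n C N (univ.image y)) (J : Finset (Fin (k + 1)))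
    (a : Fin (k + 1) → ℕ) :
      (N : ℝ) / (Real.log N) ^ C ≤ (Set.ncard {m : ℕ | (1 ≤ m ∧ m ≤ q * N + (b.natAbs + (y 0).natAbs + q + 1)) ∧
        Pb q b n (Fin.cons 0 (fun j : Fin k => y j.succ - y 0) : Fin (k + 1) → ℤ) J a m} : ℝ) +
          (b.natAbs + (y 0).natAbs + q + 1 : ℕ) := by
  classical
  refine (h (J.image y) (Function.extend y a (fun _ => 0))).trans ?_
  set W := b.natAbs + (y 0).natAbs + q + 1 with hW
  set d : Fin (k + 1) → ℤ := Fin.cons 0 (fun j : Fin k => y j.succ - y 0) with hd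
  set X : Set ℕ := {m : ℕ | (1 ≤ m ∧ m ≤ N) ∧ ∀ v ∈ univ.image y, ((vl q b v m).Prime ↔ v ∈ J.image y) ∧
    Nat.primeCounting (vl q b v m) ≡ Function.extend y a (fun _ => 0) v [MOD n]} with hX
  set Y : Set ℕ := {m : ℕ | (1 ≤ m ∧ m ≤ q * N + W) ∧ Pb q b n d J a m} with hY
  have hXf : X.Finite := GI_fin N _
  have hYf : Y.Finite := GI_fin (q * N + W) _
  have h1 : X ⊆ (Icc 1 W : Finset ℕ) ∪ {m | m ∈ X ∧ W < m} := by
    intro m hm
    by_cases hmW : m ≤ W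
    · refine Or.inl ?_
      rw [mem_coe, mem_Icc]
      exact ⟨hm.1.1, hmW⟩
    · exact Or.inr ⟨hm, by omega⟩
  have h2 : Set.ncard {m | m ∈ X ∧ W < m} ≤ Y.ncard := by
    have hwin : ∀ m : ℕ, W < m → (q : ℤ) < (q : ℤ) * m + (b + y 0) := fun m hm =>
      win hq (R := (y 0).natAbs) hm (by rw [Int.natCast_natAbs])
    have hq0 : (0 : ℤ) ≤ q := Int.natCast_nonneg _
    refine Set.ncard_le_ncard_of_injOn (fun m : ℕ => ((q : ℤ) * m + (b + y 0)).toNat) ?_ ?_ hYf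
    · rintro m ⟨hm, hmW⟩
      have h3 := hwin m hmW
      have hcast : ((((q : ℤ) * m + (b + y 0)).toNat : ℕ) : ℤ) = (q : ℤ) * m + (b + y 0) :=
        Int.toNat_of_nonneg (by linarith)
      refine ⟨⟨?_, ?_⟩, ?_, fun i => ?_⟩
      · show 1 ≤ ((q : ℤ) * m + (b + y 0)).toNat
        omega
      · show ((q : ℤ) * m + (b + y 0)).toNat ≤ q * N + W
        have h6 : (q : ℤ) * m ≤ q * N := mul_le_mul_of_nonneg_left (by exact_mod_cast hm.1.2) hq0
        have h7 : b + y 0 ≤ W := by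
          have h8 : b ≤ (b.natAbs : ℤ) := by rw [Int.natCast_natAbs]; exact le_abs_self b
          have h9 : y 0 ≤ ((y 0).natAbs : ℤ) := by rw [Int.natCast_natAbs]; exact le_abs_self _
          have h10 : (W : ℤ) = b.natAbs + (y 0).natAbs + q + 1 := by rw [hW]; push_cast; ring
          linarith
        have h8 : (q : ℤ) * m + (b + y 0) ≤ ((q * N + W : ℕ) : ℤ) := by push_cast; linarith
        omega
      · rw [hcast]
        have h8 : (q : ℤ) ∣ (q : ℤ) * m + (b + y 0) - b := by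
          have h9 : (q : ℤ) * m + (b + y 0) - b = (q : ℤ) * m + y 0 := by ring
          rw [h9]
          exact dvd_add (dvd_mul_right _ _) (hyq 0)
        exact ((Int.modEq_iff_dvd).2 h8).symm
      · have hi : ((((q : ℤ) * m + (b + y 0)).toNat : ℕ) : ℤ) + d i = (q : ℤ) * m + (b + y i) := by
          rw [hcast, hd]
          rcases Fin.eq_zero_or_eq_succ i with h0 | ⟨j', hj'⟩
          · subst h0
            rw [Fin.cons_zero]
            ring
          · subst hj'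
            rw [Fin.cons_succ]
            ring
        rw [hi]
        obtain ⟨h4, h5⟩ := hm.2 (y i) (mem_image_of_mem _ (mem_univ i))
        rw [hinj.extend_apply] at h5
        refine ⟨h4.trans ?_, h5⟩
        rw [mem_image]
        constructor
        · rintro ⟨i', hi', h6⟩
          rwa [← hinj h6]
        · intro h6
          exact ⟨i, h6, rfl⟩
    · rintro m ⟨hm, hmW⟩ m' ⟨hm', hmW'⟩ hmm
      have h6 : ((q : ℤ) * m + (b + y 0)).toNat = ((q : ℤ) * m' + (b + y 0)).toNat := hmm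
      have g2 := hwin m hmW
      have g2' := hwin m' hmW'
      have h10 : (q : ℤ) * m = (q : ℤ) * m' := by omega
      have h12 : q * m = q * m' := by exact_mod_cast h10
      exact Nat.eq_of_mul_eq_mul_left hq h12
  have h3 : X.ncard ≤ W + Set.ncard {m | m ∈ X ∧ W < m} := by
    refine (Set.ncard_le_ncard h1 ((Finset.finite_toSet _).union (hXf.subset fun m hm => hm.1))).trans ?_
    refine (Set.ncard_union_le _ _).trans ?_
    rw [Set.ncard_coe_finset, Nat.card_Icc]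
    omega
  have h4 : X.ncard ≤ Y.ncard + W := by omega
  exact_mod_cast h4

theorem cleI (k : ℕ) (ε : ℝ) (hε : 0 < ε) (q : ℕ) (hq : 1 ≤ q) (b : ℤ) (hb : IsCoprime (q : ℤ) b) (n : ℕ)
    (hn : 1 ≤ n) : CLe k (GoodI q b n) (5 / 18) ε := by
  classical
  obtain ⟨z, n₀, h⟩ := clqJ k ε hε q hq b hb n hn
  refine ⟨q * Nat.factorial z, n₀, Nat.mul_pos hq (Nat.factorial_pos z), ?_⟩
  intro V hV hn0
  have hVq : ∀ x ∈ V, (q : ℤ) ∣ x := fun x hx => by
    have h1 := hV x hx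
    push_cast at h1
    exact (dvd_mul_right _ _).trans h1
  obtain ⟨A, G, C, hA1, hA2, hA3, hG⟩ := h V hV hn0
  refine ⟨A, hA1, hA2, le_trans ?_ hA3⟩
  rw [Nat.cast_le, ← Set.ncard_coe_finset]
  refine Set.ncard_le_ncard ?_ (Set.toFinite _)
  rintro y ⟨hy1, hy2, hy3⟩
  rw [mem_coe, mem_filter, Fintype.mem_piFinset]
  refine ⟨hy1, hy2, fun hyG => hy3 ?_⟩
  set W := b.natAbs + (y 0).natAbs + q + 1 with hW
  refine ⟨C + 1, ?_⟩
  have htend : Tendsto (fun N : ℕ => q * N + W) atTop atTop := by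
    refine tendsto_atTop_mono (fun N => ?_) tendsto_id
    show N ≤ q * N + W
    nlinarith
  refine htend.frequently ((hG.and_eventually (Pool.Agent.N694.OB.growthA q W C)).mono ?_)
  rintro N ⟨hN, hgr⟩ J a
  have h1 := transI hq (fun i => hVq _ (hA1 (hy1 i))) hy2 (hN y hyG) J a
  refine hgr.trans ?_
  rw [← hW] at h1
  linarith

/-- **Boxes of shifts, with indices.** -/
theorem main (k : ℕ) (hk : 1 ≤ k) (ε : ℝ) (hε : 0 < ε) (q : ℕ) (hq : 1 ≤ q) (b : ℤ)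
    (hb : IsCoprime (q : ℤ) b) (n : ℕ) (hn : 1 ≤ n) : ∃ M : ℕ, 1 ≤ M ∧ ∀ N : ℕ, 1 ≤ N → M ∣ N → ∃ L : ℕ,
      ∀ T : ℕ, L ≤ T → ∀ c : Fin k → ℤ, (∀ j, (M : ℤ) ∣ c j) →
        ((k + 1) * (5 / 18 : ℝ) ^ k - ε) * (T : ℝ) ^ k ≤ (Pool.Agent.N646.BX.cnt (GoodI q b n) c N T : ℝ) := by
  obtain ⟨ε', hε', h⟩ := box_main k hk (5 / 18) (by norm_num) (by norm_num) ε hε
  exact h _ (cleI k ε' hε' q hq b hb n hn)

end Pool.Agent.N694.IX
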