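import Mathlib

/-!
Indices of primes (helper694): a block of `n` consecutive primes contains one whose index is in a given
class modulo `n`; separation of classes of integers.
-/

set_option autoImplicit false

namespace Pool.Agent.N694.IX

open Finset

theorem pc_succ (x : ℕ) : Nat.primeCounting (x + 1) = Nat.primeCounting x + if (x + 1).Prime then 1 else 0 := by
  unfold Nat.primeCounting Nat.primeCounting'
  rw [Nat.count_succ]

theorem pc_lt {p p' : ℕ} (h : p < p') (hp' : p'.Prime) : Nat.primeCounting p < Nat.primeCounting p' := by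
  obtain ⟨y, rfl⟩ : ∃ y, p' = y + 1 := ⟨p' - 1, by omega⟩
  rw [pc_succ, if_pos hp']
  have := Nat.monotone_primeCounting (by omega : p ≤ y)
  omega

/-- every value between two values of the counting function is the index of a prime between -/
theorem pc_ivt {u v j : ℕ} (hu : u.Prime) (h1 : Nat.primeCounting u ≤ j) (h2 : j ≤ Nat.primeCounting v) :
    ∃ p : ℕ, p.Prime ∧ u ≤ p ∧ p ≤ v ∧ Nat.primeCounting p = j := by
  classical
  have hex : ∃ x, j ≤ Nat.primeCounting x := ⟨v, h2⟩
  set x := Nat.find hex with hx
  have hx1 : j ≤ Nat.primeCounting x := Nat.find_spec hex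
  have hxv : x ≤ v := Nat.find_min' hex h2
  have hux : u ≤ x := by
    by_contra hlt
    push Not at hlt
    have := pc_lt hlt hu
    omega
  have hx0 : x ≠ 0 := by
    have := hu.pos
    omega
  obtain ⟨y, hy⟩ : ∃ y, x = y + 1 := ⟨x - 1, by omega⟩
  have hy1 : ¬ j ≤ Nat.primeCounting y := Nat.find_min hex (by omega)
  rw [hy, pc_succ] at hx1
  by_cases hp : (y + 1).Prime
  · rw [if_pos hp] at hx1
    refine ⟨x, by rw [hy]; exact hp, hux, hxv, ?_⟩
    rw [hy, pc_succ, if_pos hp]
    omega
  · rw [if_neg hp] at hx1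
    omega

/-- `n` primes in an interval contain, together with the other primes of the interval, one with index in a
given class modulo `n` -/
theorem exists_index {n : ℕ} (hn : 1 ≤ n) (a : ℕ) (P : Finset ℕ) (hP : ∀ p ∈ P, p.Prime)
    (hPn : n ≤ P.card) : ∃ p : ℕ, p.Prime ∧ (∃ u ∈ P, u ≤ p) ∧ (∃ v ∈ P, p ≤ v) ∧
      Nat.primeCounting p ≡ a [MOD n] := by
  classical
  have hne : P.Nonempty := card_pos.1 (by omega)
  set u := P.min' hne with hu
  set v := P.max' hne with hv
  have huP := P.min'_mem hne
  have hvP := P.max'_mem hne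
  have hinj : Set.InjOn Nat.primeCounting (P : Set ℕ) := by
    intro p hp p' hp' h
    rcases lt_trichotomy p p' with h1 | h1 | h1
    · have := pc_lt h1 (hP _ hp'); omega
    · exact h1
    · have := pc_lt h1 (hP _ hp); omega
  have hsub : P.image Nat.primeCounting ⊆ Icc (Nat.primeCounting u) (Nat.primeCounting v) := by
    intro y hy
    obtain ⟨p, hp, rfl⟩ := mem_image.1 hy
    exact mem_Icc.2 ⟨Nat.monotone_primeCounting (P.min'_le p hp),
      Nat.monotone_primeCounting (P.le_max' p hp)⟩
  have hcard := card_le_card hsub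
  rw [card_image_of_injOn hinj, Nat.card_Icc] at hcard
  set w := Nat.primeCounting u with hw
  set r := (a + (n - 1) * w) % n with hr
  have hrn : r < n := Nat.mod_lt _ (by omega)
  obtain ⟨p, hp, h1, h2, h3⟩ := pc_ivt (u := u) (v := v) (j := w + r) (hP _ huP) (by omega) (by omega)
  refine ⟨p, hp, ⟨u, huP, h1⟩, ⟨v, hvP, h2⟩, ?_⟩
  rw [h3]
  have h4 : r ≡ a + (n - 1) * w [MOD n] := Nat.mod_modEq _ _
  have h5 : w + r ≡ w + (a + (n - 1) * w) [MOD n] := h4.add_left w
  have h6 : w + (a + (n - 1) * w) = a + n * w := by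
    obtain ⟨n', rfl⟩ : ∃ n', n = n' + 1 := ⟨n - 1, by omega⟩
    simp only [Nat.add_sub_cancel]
    ring
  rw [h6] at h5
  refine h5.trans ?_
  have h7 : n * w ≡ 0 [MOD n] := (Nat.modEq_zero_iff_dvd).2 (dvd_mul_right n w)
  simpa using (Nat.ModEq.refl a).add h7

/-- **separation**: classes with `s B` elements have subsets with `B` elements in disjoint intervals -/
theorem sep {ι : Type} [DecidableEq ι] (B : ℕ) (hB : 1 ≤ B) (s : Finset ι) : ∀ H : ι → Finset ℤ,
    (∀ g ∈ s, s.card * B ≤ (H g).card) → ∃ W : ι → Finset ℤ, (∀ g ∈ s, W g ⊆ H g ∧ (W g).card = B) ∧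
      ∀ g ∈ s, ∀ g' ∈ s, g ≠ g' → (∀ x ∈ W g, ∀ y ∈ W g', x < y) ∨ (∀ x ∈ W g, ∀ y ∈ W g', y < x) := by
  classical
  induction s using Finset.strongInduction with
  | H s ih =>
    intro H hH
    rcases s.eq_empty_or_nonempty with rfl | hs
    · exact ⟨fun _ => ∅, fun g hg => absurd hg (notMem_empty g), fun g hg => absurd hg (notMem_empty g)⟩
    -- the least `t` such that some class has `B` elements up to `t`
    set C : Finset ℤ := (s.biUnion H).filter (fun t => ∃ g ∈ s, B ≤ ((H g).filter (fun x => x ≤ t)).card)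
      with hC
    have hsc : 1 ≤ s.card := card_pos.2 hs
    have hCne : C.Nonempty := by
      obtain ⟨g, hg⟩ := hs
      have h1 : B ≤ (H g).card := by
        have h2 := hH g hg
        nlinarith
      have hne : (H g).Nonempty := card_pos.1 (by omega)
      refine ⟨(H g).max' hne, mem_filter.2 ⟨mem_biUnion.2 ⟨g, hg, (H g).max'_mem hne⟩, g, hg, ?_⟩⟩
      have h2 : (H g).filter (fun x => x ≤ (H g).max' hne) = H g :=
        filter_true_of_mem fun x hx => (H g).le_max' x hx
      rw [h2]
      exact h1
    set t := C.min' hCne with ht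
    have htC := C.min'_mem hCne
    obtain ⟨-, g₀, hg₀, hBt⟩ := mem_filter.1 htC
    have hlow : ∀ g ∈ s, ((H g).filter (fun x => x < t)).card < B := by
      intro g hg
      by_contra hcon
      push Not at hcon
      have hne : ((H g).filter (fun x => x < t)).Nonempty := card_pos.1 (by omega)
      set t' := ((H g).filter (fun x => x < t)).max' hne with ht'
      have ht'm := ((H g).filter (fun x => x < t)).max'_mem hne
      obtain ⟨h1, h2⟩ := mem_filter.1 ht'm
      have h3 : t' ∈ C := by
        refine mem_filter.2 ⟨mem_biUnion.2 ⟨g, hg, h1⟩, g, hg, hcon.trans (card_le_card ?_)⟩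
        intro x hx
        exact mem_filter.2 ⟨(mem_filter.1 hx).1, ((H g).filter (fun x => x < t)).le_max' x hx⟩
      have h4 := C.min'_le t' h3
      have h5 : t ≤ t' := h4
      have h6 : t' < t := h2
      omega
    have hloss : ∀ g ∈ s, ((H g).filter (fun x => x ≤ t)).card ≤ B := by
      intro g hg
      have h1 : (H g).filter (fun x => x ≤ t) ⊆ insert t ((H g).filter (fun x => x < t)) := by
        intro x hx
        obtain ⟨h2, h3⟩ := mem_filter.1 hx
        rw [mem_insert, mem_filter]
        rcases h3.lt_or_eq with h4 | h4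
        · exact Or.inr ⟨h2, h4⟩
        · exact Or.inl h4
      have h2 := (card_le_card h1).trans (card_insert_le _ _)
      have h3 := hlow g hg
      omega
    obtain ⟨W₀, hW₀, hW₀c⟩ := exists_subset_card_eq hBt
    obtain ⟨W, hW1, hW2⟩ := ih (s.erase g₀) (erase_ssubset hg₀) (fun g => (H g).filter (fun x => t < x)) (by
      intro g hg
      have hg' := (mem_erase.1 hg).2
      have h1 := hH g hg'
      have h2 := hloss g hg'
      have h3 : ((H g).filter (fun x => x ≤ t)).card + ((H g).filter (fun x => ¬ x ≤ t)).card = (H g).card :=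
        card_filter_add_card_filter_not _
      have h4 : (H g).filter (fun x => ¬ x ≤ t) = (H g).filter (fun x => t < x) := by
        apply filter_congr
        intro x _
        exact not_le
      rw [h4] at h3
      rw [card_erase_of_mem hg₀]
      have h5 : (s.card - 1) * B + B = s.card * B := by
        obtain ⟨c, hc⟩ : ∃ c, s.card = c + 1 := ⟨s.card - 1, by omega⟩
        rw [hc, Nat.add_sub_cancel]
        ring
      omega)
    refine ⟨fun g => if g = g₀ then W₀ else W g, ?_, ?_⟩
    · intro g hg
      beta_reduce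
      by_cases h : g = g₀
      · rw [if_pos h]
        refine ⟨?_, hW₀c⟩
        rw [h]
        exact hW₀.trans (filter_subset _ _)
      · rw [if_neg h]
        obtain ⟨h1, h2⟩ := hW1 g (mem_erase.2 ⟨h, hg⟩)
        exact ⟨h1.trans (filter_subset _ _), h2⟩
    · intro g hg g' hg' hne
      beta_reduce
      by_cases h : g = g₀
      · have h' : g' ≠ g₀ := fun h' => hne (h.trans h'.symm)
        rw [if_pos h, if_neg h']
        left
        intro x hx y hy
        have h1 := (mem_filter.1 (hW₀ hx)).2
        have h2 := (mem_filter.1 ((hW1 g' (mem_erase.2 ⟨h', hg'⟩)).1 hy)).2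
        exact lt_of_le_of_lt h1 h2
      · by_cases h' : g' = g₀
        · rw [if_neg h, if_pos h']
          right
          intro x hx y hy
          have h1 := (mem_filter.1 (hW₀ hy)).2
          have h2 := (mem_filter.1 ((hW1 g (mem_erase.2 ⟨h, hg⟩)).1 hx)).2
          exact lt_of_le_of_lt h1 h2
        · rw [if_neg h, if_neg h']
          exact hW2 g (mem_erase.2 ⟨h, hg⟩) g' (mem_erase.2 ⟨h', hg'⟩) hne

end Pool.Agent.N694.IX
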