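import Pool.Agent.Y827.HN.Pat
import Pool.Agent.N694.IX.Cnt
import Pool.Agent.N694.OB.Aff

/-!
Primes and their indices at translates of tuples (helper694): the coloured theorem. The values of the function
counting the primes are prescribed modulo `n` at the chosen points.
-/

set_option autoImplicit false

namespace Pool.Agent.N694.IX

open Finset Filter Topology
open Pool.Agent.Y827.GS

/-- the value `q m + b + v` -/
def vl (q : ℕ) (b v : ℤ) (m : ℕ) : ℕ := ((q : ℤ) * m + (b + v)).toNat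

theorem growI (A B C : ℕ) : ∀ᶠ N : ℕ in atTop,
    (A : ℝ) * ((N : ℝ) / (Real.log N) ^ (C + 1)) + B ≤ (N : ℝ) / (Real.log N) ^ C := by
  have hlog : Tendsto (fun N : ℕ => Real.log (N : ℝ)) atTop atTop :=
    Real.tendsto_log_atTop.comp tendsto_natCast_atTop_atTop
  have hsmall : ∀ᶠ N : ℕ in atTop, (B : ℝ) * (Real.log N) ^ C ≤ (N : ℝ) / 2 := by
    have h1 : Tendsto (fun N : ℕ => (Real.log (N : ℝ)) ^ C / (N : ℝ)) atTop (𝓝 0) := by
      have h2 := (Real.isLittleO_pow_log_id_atTop (n := C)).tendsto_div_nhds_zero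
      exact h2.comp tendsto_natCast_atTop_atTop
    have h3 : Tendsto (fun N : ℕ => (B : ℝ) * ((Real.log (N : ℝ)) ^ C / (N : ℝ))) atTop (𝓝 0) := by
      simpa using h1.const_mul (B : ℝ)
    filter_upwards [h3.eventually (gt_mem_nhds (by norm_num : (0 : ℝ) < 1 / 2)),
      eventually_gt_atTop 0] with N h4 h5
    have h6 : (0 : ℝ) < N := by exact_mod_cast h5
    have h7 : (B : ℝ) * ((Real.log N) ^ C / N) = (B : ℝ) * (Real.log N) ^ C / N := by ring
    rw [h7, div_lt_iff₀ h6] at h4
    linarith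
  filter_upwards [hlog.eventually_ge_atTop (2 * (A : ℝ) + 1), hsmall, eventually_gt_atTop 0] with N h1 h2 h3
  have hN : (0 : ℝ) < N := by exact_mod_cast h3
  have hA : (0 : ℝ) ≤ A := Nat.cast_nonneg _
  have hL : (0 : ℝ) < Real.log N := by linarith
  have hC : (0 : ℝ) < (Real.log N) ^ C := by positivity
  have h4 : (N : ℝ) / (Real.log N) ^ (C + 1) = (N / (Real.log N) ^ C) / Real.log N := by
    rw [pow_succ, div_div]
  have h5 : (A : ℝ) * ((N / (Real.log N) ^ C) / Real.log N) ≤ (N / (Real.log N) ^ C) / 2 := by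
    have h6 : (A : ℝ) / Real.log N ≤ 1 / 2 := by
      rw [div_le_iff₀ hL]
      linarith
    have h7 : (A : ℝ) * ((N / (Real.log N) ^ C) / Real.log N) = (N / (Real.log N) ^ C) * (A / Real.log N) := by
      ring
    rw [h7]
    have h8 : 0 ≤ (N : ℝ) / (Real.log N) ^ C := by positivity
    nlinarith
  have h6 : (B : ℝ) ≤ (N / (Real.log N) ^ C) / 2 := by
    rw [div_div, le_div_iff₀ (by positivity)]
    linarith
  rw [h4]
  linarith

theorem win {q : ℕ} (hq : 1 ≤ q) {b : ℤ} {R m : ℕ} (hm : b.natAbs + R + q + 1 < m) {t : ℤ} (ht : |t| ≤ R) :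
    (q : ℤ) < (q : ℤ) * m + (b + t) := by
  have h1 : (m : ℤ) ≤ (q : ℤ) * m := by
    have : m ≤ q * m := Nat.le_mul_of_pos_left _ hq
    exact_mod_cast this
  have h2 : ((b.natAbs + R + q + 1 : ℕ) : ℤ) < m := by exact_mod_cast hm
  push_cast at h2
  have h3 := abs_le.1 ht
  have h4 : -|b| ≤ b := neg_abs_le _
  linarith [h3.1]

theorem copr {q : ℕ} {b t : ℤ} {m p : ℕ} (hp : p.Prime) (hpt : (p : ℤ) = (q : ℤ) * m + (b + t))
    (hqp : q < p) (hq : 1 ≤ q) : IsCoprime (q : ℤ) (b + t) := by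
  by_contra hcop
  rw [Int.isCoprime_iff_gcd_eq_one] at hcop
  obtain ⟨g, hg, hgd⟩ := Nat.exists_prime_and_dvd hcop
  have h10 : (g : ℤ) ∣ (q : ℤ) := (Int.natCast_dvd_natCast.2 hgd).trans (Int.gcd_dvd_left _ _)
  have h11 : (g : ℤ) ∣ b + t := (Int.natCast_dvd_natCast.2 hgd).trans (Int.gcd_dvd_right _ _)
  have h12 : (g : ℤ) ∣ (p : ℤ) := by
    rw [hpt]
    exact dvd_add (h10.mul_right _) h11
  have h13 : g = p := (Nat.prime_dvd_prime_iff_eq hg hp).1 (Int.natCast_dvd_natCast.1 h12)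
  have h14 : g ≤ q := Nat.le_of_dvd (by omega) (Int.natCast_dvd_natCast.1 h10)
  omega

/-- between two integers without primes in between (the larger not prime) the counting function is constant -/
theorem pc_const {u v : ℕ} (huv : u ≤ v) (h : ∀ p : ℕ, u < p → p ≤ v → ¬ p.Prime) :
    Nat.primeCounting v = Nat.primeCounting u := by
  induction v, huv using Nat.le_induction with
  | base => rfl
  | succ v hv ih =>
    rw [pc_succ, if_neg (h (v + 1) (by omega) le_rfl), add_zero]
    exact ih fun p h1 h2 => h p h1 (by omega)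

open Classical in
/-- the number of the `1 ≤ m ≤ N` for which the numbers `q m + b + φ g`, `g ∈ S`, are primes exactly for `g ∈ J`
and have prescribed numbers of primes modulo `n` below them -/
noncomputable def cI (q : ℕ) (b : ℤ) (n : ℕ) {T : ℕ} (S : Finset (Fin T)) (φ : Fin T → ℤ) (J : Finset (Fin T))
    (α : Fin T → ℕ) (N : ℕ) : ℕ :=
  ((Icc 1 N).filter (fun m : ℕ => ∀ g ∈ S, ((vl q b (φ g) m).Prime ↔ g ∈ J) ∧
    Nat.primeCounting (vl q b (φ g) m) ≡ α g [MOD n])).card

/-- the pointwise step: at a point where the chosen representatives are prime and all other numbers of the window are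
composite every pattern with prescribed indices occurs -/
theorem point {q : ℕ} (hq : 1 ≤ q) {b : ℤ} {n : ℕ} (hn : 1 ≤ n) {T c K₁ B : ℕ}
    (w : Fin T → Fin B → ℤ) (hw : ∀ g, StrictMono (w g))
    (hsep : ∀ g g', g ≠ g' → (∀ x y, w g x < w g' y) ∨ (∀ x y, w g' y < w g x))
    (pos : Fin c → Fin K₁ → Fin 2 → Fin B)
    (hpos : ∀ j i s, ((pos j i s : Fin B) : ℕ) = s + 2 * i + (K₁ * 2) * j)
    {R : ℕ} (hR : ∀ g x, |w g x| ≤ R) {m : ℕ} (hm : b.natAbs + R + q + 1 < m)
    (A : Finset (Fin T × Fin c)) (cc : Fin T → Fin c → Fin K₁)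
    (hA : ∀ x ∈ A, (vl q b (w x.1 (pos x.2 (cc x.1 x.2) 0)) m).Prime)
    (hU : ∀ t : ℤ, |t| ≤ R → IsCoprime (q : ℤ) (b + t) → (∀ g j i, t ≠ w g (pos j i 0)) →
      ¬ (vl q b t m).Prime)
    (S : Finset (Fin T)) (hS : ∀ g ∈ S, n ≤ (univ.filter (fun j => (g, j) ∈ A)).card)
    (hB0 : 1 ≤ B) (J : Finset (Fin T)) (α : Fin T → ℕ) : ∃ e : Fin T → Fin B, ∀ g ∈ S,
      ((vl q b (w g (e g)) m).Prime ↔ g ∈ J) ∧ Nat.primeCounting (vl q b (w g (e g)) m) ≡ α g [MOD n] := by
  classical
  have hvl : ∀ t : ℤ, |t| ≤ R → ((vl q b t m : ℕ) : ℤ) = (q : ℤ) * m + (b + t) ∧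
      (q : ℤ) < (q : ℤ) * m + (b + t) := by
    intro t ht
    have h1 := win hq hm ht
    have h2 : (0 : ℤ) ≤ q := Int.natCast_nonneg _
    exact ⟨Int.toNat_of_nonneg (by linarith), h1⟩
  -- a prime in the window is a representative
  have hrep : ∀ p : ℕ, p.Prime → ∀ g x y, vl q b (w g x) m ≤ p → p ≤ vl q b (w g y) m →
      ∃ j i, p = vl q b (w g (pos j i 0)) m ∧ x ≤ pos j i 0 ∧ pos j i 0 ≤ y := by
    intro p hp g x y h1 h2
    obtain ⟨h3, h3'⟩ := hvl _ (hR g x)
    obtain ⟨h4, -⟩ := hvl _ (hR g y)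
    have h1' : ((vl q b (w g x) m : ℕ) : ℤ) ≤ p := by exact_mod_cast h1
    have h2' : (p : ℤ) ≤ ((vl q b (w g y) m : ℕ) : ℤ) := by exact_mod_cast h2
    rw [h3] at h1'
    rw [h4] at h2'
    obtain ⟨t, ht⟩ : ∃ t : ℤ, (p : ℤ) = (q : ℤ) * m + (b + t) := ⟨(p : ℤ) - q * m - b, by ring⟩
    have h5 : w g x ≤ t := by linarith
    have h6 : t ≤ w g y := by linarith
    have h7 : |t| ≤ R := by
      have h8 := abs_le.1 (hR g x)
      have h9 := abs_le.1 (hR g y)
      rw [abs_le]
      exact ⟨by linarith [h8.1], by linarith [h9.2]⟩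
    obtain ⟨h8, h9⟩ := hvl t h7
    have h10 : vl q b t m = p := by
      have : ((vl q b t m : ℕ) : ℤ) = p := by rw [h8, ht]
      exact_mod_cast this
    have h11 : q < p := by
      have : (q : ℤ) < p := by rw [ht]; exact h9
      exact_mod_cast this
    have h12 : ∃ g' j i, t = w g' (pos j i 0) := by
      by_contra hcon
      push Not at hcon
      exact hU t h7 (copr hp ht h11 hq) hcon (by rw [h10]; exact hp)
    obtain ⟨g', j, i, h13⟩ := h12
    have hgg : g' = g := by
      by_contra hne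
      rcases hsep g' g hne with h14 | h14
      · have := h14 (pos j i 0) x
        rw [← h13] at this
        linarith
      · have := h14 (pos j i 0) y
        rw [← h13] at this
        linarith
    subst hgg
    refine ⟨j, i, by rw [← h13, h10], ?_, ?_⟩
    · rw [h13] at h5
      exact (hw g').le_iff_le.1 h5
    · rw [h13] at h6
      exact (hw g').le_iff_le.1 h6
  have key : ∀ g ∈ S, ∃ e : Fin B, ((vl q b (w g e) m).Prime ↔ g ∈ J) ∧
      Nat.primeCounting (vl q b (w g e) m) ≡ α g [MOD n] := by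
    intro g hg
    set Jg := univ.filter (fun j => (g, j) ∈ A) with hJg
    set P := Jg.image (fun j => vl q b (w g (pos j (cc g j) 0)) m) with hP
    have hPc : P.card = Jg.card := by
      apply card_image_of_injOn
      intro j hj j' hj' h
      have h1 := (hvl _ (hR g (pos j (cc g j) 0))).1
      have h2 := (hvl _ (hR g (pos j' (cc g j') 0))).1
      have h3 : vl q b (w g (pos j (cc g j) 0)) m = vl q b (w g (pos j' (cc g j') 0)) m := h
      have h4 : w g (pos j (cc g j) 0) = w g (pos j' (cc g j') 0) := by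
        rw [h3] at h1
        linarith
      have h5 := (hw g).injective h4
      have h6 : ((pos j (cc g j) 0 : Fin B) : ℕ) = ((pos j' (cc g j') 0 : Fin B) : ℕ) := by rw [h5]
      rw [hpos, hpos] at h6
      have h7 : ((0 : Fin 2) : ℕ) = 0 := rfl
      rw [h7] at h6
      have h8 := (cc g j).2
      have h9 := (cc g j').2
      have h10 : (j : ℕ) = j' := by
        rcases lt_trichotomy (j : ℕ) j' with h | h | h
        · exfalso
          have : (K₁ * 2) * (j : ℕ) + K₁ * 2 ≤ (K₁ * 2) * (j' : ℕ) := by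
            have := Nat.mul_le_mul_left (K₁ * 2) (by omega : (j : ℕ) + 1 ≤ j')
            linarith
          omega
        · exact h
        · exfalso
          have : (K₁ * 2) * (j' : ℕ) + K₁ * 2 ≤ (K₁ * 2) * (j : ℕ) := by
            have := Nat.mul_le_mul_left (K₁ * 2) (by omega : (j' : ℕ) + 1 ≤ j)
            linarith
          omega
      exact Fin.ext h10
    obtain ⟨p, hp1, ⟨u, hu1, hu2⟩, ⟨v, hv1, hv2⟩, hp4⟩ := exists_index hn (α g) P (by
      intro p hp
      obtain ⟨j, hj, rfl⟩ := mem_image.1 hp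
      exact hA (g, j) (mem_filter.1 hj).2) (by rw [hPc]; exact hS g hg)
    obtain ⟨ju, -, rfl⟩ := mem_image.1 hu1
    obtain ⟨jv, -, rfl⟩ := mem_image.1 hv1
    obtain ⟨j, i, h1, -, -⟩ := hrep p hp1 g _ _ hu2 hv2
    by_cases hgJ : g ∈ J
    · refine ⟨pos j i 0, ?_, ?_⟩
      · rw [← h1]
        exact ⟨fun _ => hgJ, fun _ => hp1⟩
      · rw [← h1]
        exact hp4
    · -- the next element of the block is composite
      have h2 : (pos j i 0 : Fin B) < pos j i 1 := by
        rw [Fin.lt_def, hpos, hpos]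
        have h7 : ((0 : Fin 2) : ℕ) = 0 := rfl
        have h8 : ((1 : Fin 2) : ℕ) = 1 := rfl
        omega
      have h3 := hw g h2
      obtain ⟨h4, -⟩ := hvl _ (hR g (pos j i 0))
      obtain ⟨h5, -⟩ := hvl _ (hR g (pos j i 1))
      have h6 : vl q b (w g (pos j i 0)) m < vl q b (w g (pos j i 1)) m := by
        have : ((vl q b (w g (pos j i 0)) m : ℕ) : ℤ) < ((vl q b (w g (pos j i 1)) m : ℕ) : ℤ) := by
          rw [h4, h5]
          linarith
        exact_mod_cast this
      have h7 : ∀ p' : ℕ, vl q b (w g (pos j i 0)) m < p' → p' ≤ vl q b (w g (pos j i 1)) m → ¬ p'.Prime := by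
        intro p' h8 h9 hp'
        obtain ⟨j', i', h10, h11, h12⟩ := hrep p' hp' g _ _ h8.le h9
        have h13 : (pos j i 0 : Fin B) ≠ pos j' i' 0 := by
          intro h
          rw [h10, ← h] at h8
          exact lt_irrefl _ h8
        have h14 : (pos j i 0 : Fin B) < pos j' i' 0 := lt_of_le_of_ne h11 h13
        rw [Fin.lt_def, hpos, hpos] at h14
        rw [Fin.le_def, hpos, hpos] at h12
        have e0 : ((0 : Fin 2) : ℕ) = 0 := rfl
        have e1 : ((1 : Fin 2) : ℕ) = 1 := rfl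
        have h15 : K₁ * 2 * (j : ℕ) = 2 * (K₁ * j) := by ring
        have h16 : K₁ * 2 * (j' : ℕ) = 2 * (K₁ * j') := by ring
        rw [h15, h16] at h14 h12
        omega
      refine ⟨pos j i 1, ⟨fun h => absurd h (h7 _ h6 le_rfl), fun h => absurd h hgJ⟩, ?_⟩
      rw [pc_const h6.le h7, ← h1]
      exact hp4
  have : Nonempty (Fin B) := ⟨⟨0, hB0⟩⟩
  choose! e he using key
  exact ⟨e, fun g hg => he g hg⟩

end Pool.Agent.N694.IX
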