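import Pool.Agent.N694.IX.Hit

/-!
Primes and their indices at translates of tuples (helper694): separated blocks.
-/

set_option autoImplicit false

namespace Pool.Agent.N694.IX

open Finset Filter Topology
open Pool.Agent.Y827.GS

open Classical in
/-- the theorem for separated blocks -/
theorem hitA (q : ℕ) (hq : 1 ≤ q) (b : ℤ) (hb : IsCoprime (q : ℤ) b) (n : ℕ) (hn : 1 ≤ n) (T : ℕ)
    (hT : 1 ≤ T) : ∃ B z : ℕ, 1 ≤ B ∧ ∀ w : Fin T → Fin B → ℤ, (∀ g, StrictMono (w g)) →
      (∀ g g', g ≠ g' → (∀ x y, w g x < w g' y) ∨ (∀ x y, w g' y < w g x)) →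
      (∀ g x, ((q * Nat.factorial z : ℕ) : ℤ) ∣ w g x) →
      ∃ C : ℕ, ∀ᶠ N : ℕ in atTop, ∃ S : Finset (Fin T), (T : ℝ) ≤ (18 / 5) * (S.card : ℝ) ∧
        ∀ (J : Finset (Fin T)) (α : Fin T → ℕ), ∃ e : Fin T → Fin B,
          (N : ℝ) / (Real.log N) ^ C ≤ (cI q b n S (fun g => w g (e g)) J α N : ℝ) := by
  obtain ⟨c, hc⟩ : ∃ c, c = 18 * T * n + 1 := ⟨_, rfl⟩
  obtain ⟨K₁, hK₁, hpat⟩ := Pool.Agent.Y827.HN.patRD (T * c)
  have hTc : 1 ≤ T * c := Nat.mul_pos hT (by omega)
  refine ⟨c * (K₁ * 2), T * c * K₁, Nat.mul_pos (by omega) (by omega), ?_⟩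
  intro w hw hsep hdv
  obtain ⟨pos, hpos⟩ : ∃ pos : Fin c → Fin K₁ → Fin 2 → Fin (c * (K₁ * 2)), ∀ j i s,
      ((pos j i s : Fin (c * (K₁ * 2))) : ℕ) = s + 2 * i + (K₁ * 2) * j :=
    ⟨fun j i s => finProdFinEquiv (j, finProdFinEquiv (i, s)), fun j i s => by
      simp [finProdFinEquiv]⟩
  have hqZ : (0 : ℤ) < q := by exact_mod_cast hq
  have hdq : ∀ g x, (q : ℤ) ∣ w g x := fun g x => by
    have h1 := hdv g x
    push_cast at h1
    exact (dvd_mul_right _ _).trans h1
  have hcop : ∀ g x, IsCoprime (q : ℤ) (b + w g x) := by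
    intro g x
    obtain ⟨u, hu⟩ := hdq g x
    rw [hu]
    exact hb.add_mul_left_right u
  have hwinj : ∀ g x g' x', w g x = w g' x' → g = g' ∧ x = x' := by
    intro g x g' x' h
    have hgg : g = g' := by
      by_contra hne
      rcases hsep g g' hne with h1 | h1
      · exact absurd h (h1 x x').ne
      · exact absurd h (h1 x x').ne'
    subst hgg
    exact ⟨rfl, (hw g).injective h⟩
  have hposinj : ∀ j i j' i', pos j i 0 = pos j' i' 0 → j = j' ∧ i = i' := by
    intro j i j' i' h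
    have h6 : ((pos j i 0 : Fin (c * (K₁ * 2))) : ℕ) = ((pos j' i' 0 : Fin (c * (K₁ * 2))) : ℕ) := by rw [h]
    rw [hpos, hpos] at h6
    have h7 : ((0 : Fin 2) : ℕ) = 0 := rfl
    rw [h7] at h6
    have h8 := i.2
    have h9 := i'.2
    have h10 : (j : ℕ) = j' := by
      rcases lt_trichotomy (j : ℕ) j' with h | h | h
      · exfalso
        have : (K₁ * 2) * (j : ℕ) + K₁ * 2 ≤ (K₁ * 2) * (j' : ℕ) := by
          have := Nat.mul_le_mul_left (K₁ * 2) (by omega : (j : ℕ) + 1 ≤ j')
          linarith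
        omega
      · exact h
      · exfalso
        have : (K₁ * 2) * (j' : ℕ) + K₁ * 2 ≤ (K₁ * 2) * (j : ℕ) := by
          have := Nat.mul_le_mul_left (K₁ * 2) (by omega : (j' : ℕ) + 1 ≤ j)
          linarith
        omega
    refine ⟨Fin.ext h10, Fin.ext ?_⟩
    rw [h10] at h6
    omega
  set H : Fin (T * c) → Fin K₁ → ℤ × ℤ := fun x i =>
    ((q : ℤ), b + w (finProdFinEquiv.symm x).1 (pos (finProdFinEquiv.symm x).2 i 0)) with hH
  have hHinj : Function.Injective (fun x : Fin (T * c) × Fin K₁ => H x.1 x.2) := by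
    rintro ⟨x, i⟩ ⟨x', i'⟩ h
    have h1 : b + w (finProdFinEquiv.symm x).1 (pos (finProdFinEquiv.symm x).2 i 0) =
        b + w (finProdFinEquiv.symm x').1 (pos (finProdFinEquiv.symm x').2 i' 0) := (Prod.mk.inj h).2
    obtain ⟨h2, h3⟩ := hwinj _ _ _ _ (add_left_cancel h1)
    obtain ⟨h4, h5⟩ := hposinj _ _ _ _ h3
    have h6 : finProdFinEquiv.symm x = finProdFinEquiv.symm x' := Prod.ext h2 h4
    rw [h5, finProdFinEquiv.symm.injective h6]
  obtain ⟨R, hR⟩ : ∃ R : ℕ, ∀ g x, |w g x| ≤ R := by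
    refine ⟨∑ g, ∑ x, (w g x).natAbs, fun g x => ?_⟩
    have h1 : (w g x).natAbs ≤ ∑ g, ∑ x, (w g x).natAbs := by
      refine (single_le_sum (f := fun x => (w g x).natAbs) (fun _ _ => Nat.zero_le _) (mem_univ x)).trans ?_
      exact single_le_sum (f := fun g => ∑ x, (w g x).natAbs) (fun _ _ => Nat.zero_le _) (mem_univ g)
    rw [← Int.natCast_natAbs]
    exact_mod_cast h1
  set U : Finset (ℤ × ℤ) := ((Icc (-(R : ℤ)) R).filter (fun t => IsCoprime (q : ℤ) (b + t) ∧
    ∀ g j i, t ≠ w g (pos j i 0))).image (fun t => ((q : ℤ), b + t)) with hU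
  obtain ⟨C, hC⟩ := hpat hTc H hHinj (fun x i => ⟨hqZ, hcop _ _⟩) (by
    intro p hp hpz
    by_cases hpq : p ∣ q
    · refine ⟨0, fun g i hd => ?_⟩
      have h1 : (p : ℤ) ∣ b + w (finProdFinEquiv.symm g).1 (pos (finProdFinEquiv.symm g).2 i 0) := by
        simpa [hH] using hd
      have h2 : (p : ℤ) ∣ q := Int.natCast_dvd_natCast.2 hpq
      obtain ⟨u, v, huv⟩ := hcop (finProdFinEquiv.symm g).1 (pos (finProdFinEquiv.symm g).2 i 0)
      have h3 : (p : ℤ) ∣ 1 := huv ▸ dvd_add (dvd_mul_of_dvd_right h2 u) (dvd_mul_of_dvd_right h1 v)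
      exact (Nat.prime_iff_prime_int.1 hp).not_dvd_one h3
    · have hpZ : Prime (p : ℤ) := Nat.prime_iff_prime_int.1 hp
      have h1 : IsCoprime (q : ℤ) (p : ℤ) :=
        ((Prime.coprime_iff_not_dvd hpZ).2 (fun h => hpq (Int.natCast_dvd_natCast.1 h))).symm
      obtain ⟨u, v, huv⟩ := h1
      refine ⟨u * (1 - b), fun g i hd => ?_⟩
      set x : ℤ := w (finProdFinEquiv.symm g).1 (pos (finProdFinEquiv.symm g).2 i 0) with hx
      have h2 : (p : ℤ) ∣ x := by
        have h3 := hdv (finProdFinEquiv.symm g).1 (pos (finProdFinEquiv.symm g).2 i 0)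
        have h4 : (p : ℤ) ∣ ((q * Nat.factorial (T * c * K₁) : ℕ) : ℤ) :=
          Int.natCast_dvd_natCast.2 (Dvd.dvd.mul_left ((Nat.Prime.dvd_factorial hp).2 hpz) q)
        exact h4.trans h3
      have h3 : (H g i).1 * (u * (1 - b)) + (H g i).2 = 1 + (x - (p : ℤ) * (v * (1 - b))) := by
        have h4 : u * (q : ℤ) = 1 - v * p := by linarith
        calc (q : ℤ) * (u * (1 - b)) + (b + x) = (u * q) * (1 - b) + (b + x) := by ring
          _ = (1 - v * p) * (1 - b) + (b + x) := by rw [h4]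
          _ = _ := by ring
      rw [h3] at hd
      have h5 : (p : ℤ) ∣ x - (p : ℤ) * (v * (1 - b)) := dvd_sub h2 (dvd_mul_right _ _)
      exact hpZ.not_dvd_one ((dvd_add_left h5).1 hd)) U (by
    intro u hu
    obtain ⟨t, ht, rfl⟩ := mem_image.1 hu
    obtain ⟨-, ht2, ht3⟩ := mem_filter.1 ht
    refine ⟨hqZ, ht2, fun x i h => ?_⟩
    have h1 : b + t = b + w (finProdFinEquiv.symm x).1 (pos (finProdFinEquiv.symm x).2 i 0) :=
      (Prod.mk.inj h).2
    exact ht3 _ _ _ (add_left_cancel h1)) 1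
  have hB0 : 1 ≤ c * (K₁ * 2) := Nat.mul_pos (by omega) (by omega)
  refine ⟨C + 1, ?_⟩
  filter_upwards [hC, growI ((c * (K₁ * 2)) ^ T) (b.natAbs + R + q + 1) C, eventually_ge_atTop 3] with N hN hgr hN3
  obtain ⟨S', c', hS', hall⟩ := hN
  set A : Finset (Fin T × Fin c) := univ.filter (fun y => finProdFinEquiv y ∈ S') with hA
  have hAc : A.card = S'.card := by
    have h1 : A.image finProdFinEquiv = S' := by
      ext x
      rw [mem_image]
      constructor
      · rintro ⟨y, hy, rfl⟩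
        exact (mem_filter.1 hy).2
      · intro hx
        exact ⟨finProdFinEquiv.symm x, mem_filter.2 ⟨mem_univ _, by
          rw [Equiv.apply_symm_apply]; exact hx⟩, Equiv.apply_symm_apply _ _⟩
    rw [← h1]
    exact (card_image_of_injective _ finProdFinEquiv.injective).symm
  set S : Finset (Fin T) := univ.filter (fun g => n ≤ (univ.filter (fun j => (g, j) ∈ A)).card) with hS
  refine ⟨S, ?_, ?_⟩
  · -- the number of classes
    have h1 : A.card = ∑ g : Fin T, (univ.filter (fun j => (g, j) ∈ A)).card := by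
      have h2 : A = (univ : Finset (Fin T)).biUnion (fun g => (univ.filter (fun j => (g, j) ∈ A)).image
          (fun j => (g, j))) := by
        ext ⟨g, j⟩
        simp
      conv_lhs => rw [h2]
      rw [card_biUnion]
      · refine sum_congr rfl fun g _ => card_image_of_injective _ fun j j' h => (Prod.mk.inj h).2
      · intro g _ g' _ hne
        rw [Function.onFun, Finset.disjoint_left]
        rintro x hx hx'
        obtain ⟨j, -, rfl⟩ := mem_image.1 hx
        obtain ⟨j', -, h3⟩ := mem_image.1 hx'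
        exact hne (Prod.mk.inj h3).1.symm
    have h2 : ∑ g : Fin T, (univ.filter (fun j => (g, j) ∈ A)).card ≤
        ∑ g : Fin T, (if g ∈ S then c else 0) + ∑ g : Fin T, n := by
      rw [← sum_add_distrib]
      refine sum_le_sum fun g _ => ?_
      by_cases hg : g ∈ S
      · rw [if_pos hg]
        have : (univ.filter (fun j => (g, j) ∈ A)).card ≤ c := by
          refine (card_le_univ _).trans ?_
          rw [Fintype.card_fin]
        omega
      · rw [if_neg hg]
        have : ¬ n ≤ (univ.filter (fun j => (g, j) ∈ A)).card := fun h => hg (mem_filter.2 ⟨mem_univ _, h⟩)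
        omega
    rw [sum_ite_mem, univ_inter, sum_const, sum_const, card_univ, Fintype.card_fin, smul_eq_mul,
      smul_eq_mul] at h2
    have h3 : S'.card ≤ S.card * c + T * n := by
      rw [← hAc, h1]
      exact h2
    have h4 : (S'.card : ℝ) ≤ S.card * c + T * n := by exact_mod_cast h3
    push_cast at hS'
    have h5 : 5 * T ≤ 18 * S.card := by
      by_contra hcon
      push Not at hcon
      have h6 : (18 : ℝ) * S.card + 1 ≤ 5 * T := by exact_mod_cast hcon
      have hcR : (c : ℝ) = 18 * T * n + 1 := by rw [hc]; push_cast; ring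
      have h7 : (5 : ℝ) * (T * c) ≤ 18 * (S.card * c + T * n) := by linarith
      have h8 : (0 : ℝ) < c := by rw [hcR]; positivity
      nlinarith
    have h6 : (5 : ℝ) * T ≤ 18 * S.card := by exact_mod_cast h5
    linarith
  · intro J α
    obtain ⟨d, -, -, hd⟩ := hall _ (Subset.refl _)
    set F := S'.image (fun g => H g (c' g)) with hF
    set X := (Icc (1 + 1) N).filter (fun m : ℕ => ∀ j < 1,
      (∀ f ∈ F, (f.1 * ((m + j * d : ℕ) : ℤ) + f.2).toNat.Prime) ∧
      ∀ f ∈ (F \ F) ∪ U, ¬ (f.1 * ((m + j * d : ℕ) : ℤ) + f.2).toNat.Prime) with hX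
    have hd' : (N : ℝ) / (Real.log N) ^ C ≤ (X.card : ℝ) := hd
    set W := b.natAbs + R + q + 1 with hW
    set X' := X.filter (fun m => W < m) with hX'
    have h1 : X.card ≤ W + X'.card := by
      have h2 : X ⊆ Icc 1 W ∪ X' := by
        intro m hm
        rw [mem_union, mem_Icc, hX', mem_filter]
        by_cases h : m ≤ W
        · refine Or.inl ⟨?_, h⟩
          have := (mem_Icc.1 (mem_filter.1 hm).1).1
          omega
        · exact Or.inr ⟨hm, by omega⟩
      have h3 := (card_le_card h2).trans (card_union_le _ _)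
      rw [Nat.card_Icc] at h3
      omega
    have hex : ∀ m ∈ X', ∃ e : Fin T → Fin (c * (K₁ * 2)), ∀ g ∈ S,
        ((vl q b (w g (e g)) m).Prime ↔ g ∈ J) ∧
          Nat.primeCounting (vl q b (w g (e g)) m) ≡ α g [MOD n] := by
      intro m hm
      obtain ⟨hm1, hm2⟩ := mem_filter.1 hm
      obtain ⟨-, hm3⟩ := mem_filter.1 hm1
      obtain ⟨hm4, hm5⟩ := hm3 0 (by norm_num)
      refine point hq hn w hw hsep pos hpos hR hm2 A (fun g j => c' (finProdFinEquiv (g, j))) ?_ ?_ S
        (fun g hg => (mem_filter.1 hg).2) hB0 J α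
      · rintro ⟨g, j⟩ hx
        have h2 := hm4 (H (finProdFinEquiv (g, j)) (c' (finProdFinEquiv (g, j))))
          (mem_image_of_mem _ (mem_filter.1 hx).2)
        have h3 : H (finProdFinEquiv (g, j)) (c' (finProdFinEquiv (g, j))) =
            ((q : ℤ), b + w g (pos j (c' (finProdFinEquiv (g, j))) 0)) := by
          rw [hH]
          simp
        rw [h3] at h2
        unfold vl
        simpa using h2
      · intro t ht hct htr hpr
        have h2 := hm5 ((q : ℤ), b + t) (mem_union_right _ (mem_image.2 ⟨t, mem_filter.2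
          ⟨mem_Icc.2 (abs_le.1 ht), hct, htr⟩, rfl⟩))
        apply h2
        unfold vl at hpr
        simpa using hpr
    -- pigeonhole over the functions
    have hsub : X' ⊆ (univ : Finset (Fin T → Fin (c * (K₁ * 2)))).biUnion (fun e =>
        (Icc 1 N).filter (fun m : ℕ => ∀ g ∈ S, ((vl q b (w g (e g)) m).Prime ↔ g ∈ J) ∧
          Nat.primeCounting (vl q b (w g (e g)) m) ≡ α g [MOD n])) := by
      intro m hm
      obtain ⟨e, he⟩ := hex m hm
      refine mem_biUnion.2 ⟨e, mem_univ _, mem_filter.2 ⟨?_, he⟩⟩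
      have := mem_Icc.1 (mem_filter.1 (mem_filter.1 hm).1).1
      rw [mem_Icc]
      omega
    have h2 : X'.card ≤ ∑ e : Fin T → Fin (c * (K₁ * 2)), cI q b n S (fun g => w g (e g)) J α N :=
      (card_le_card hsub).trans card_biUnion_le
    by_contra hcon
    push Not at hcon
    have h3 : ((∑ e : Fin T → Fin (c * (K₁ * 2)), cI q b n S (fun g => w g (e g)) J α N : ℕ) : ℝ) <
        (((c * (K₁ * 2)) ^ T : ℕ) : ℝ) * ((N : ℝ) / (Real.log N) ^ (C + 1)) := by
      rw [Nat.cast_sum]
      have hne : (univ : Finset (Fin T → Fin (c * (K₁ * 2)))).Nonempty := by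
        have : Nonempty (Fin (c * (K₁ * 2))) := ⟨⟨0, hB0⟩⟩
        exact univ_nonempty
      refine (sum_lt_sum_of_nonempty hne fun e _ => hcon e).trans_le (le_of_eq ?_)
      rw [sum_const, card_univ, Fintype.card_fun, Fintype.card_fin, Fintype.card_fin, nsmul_eq_mul]
    have h4 : (X'.card : ℝ) ≤ ((∑ e : Fin T → Fin (c * (K₁ * 2)),
      cI q b n S (fun g => w g (e g)) J α N : ℕ) : ℝ) := by exact_mod_cast h2
    have h5 : (X.card : ℝ) ≤ (W : ℕ) + X'.card := by exact_mod_cast h1
    linarith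

end Pool.Agent.N694.IX
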